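import Pool.Agent.Helper75.PX.Stmts4
import Pool.Agent.Helper12.PX.IND3

/-!
# PX, row IND3t: index of the cube, every characteristic
-/

set_option autoImplicit false

universe u

open Module TensorProduct
open scoped Kronecker

namespace Pool.Agent.Helper75.PX

theorem st_IND3t (h1 : ST_TRR.{u}) (h2 : ST_KRO.{u}) (h3 : ST_GOLt.{u}) (h4 : ST_RK3.{u})
    (h5 : ST_INDG.{u}) (h6 : ST_TCS.{u}) : ST_IND3t.{u} := by
  intro K A _ _ _ _ _ n m hn hA hm hδ hmn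
  have fA : FiniteDimensional K A := by
    apply FiniteDimensional.of_finrank_pos
    rw [hA]
    positivity
  obtain ⟨Ψ, hΨ, htr⟩ := h1 K A n hn hA
  obtain ⟨Θ2, hΘ2, hΘ2f⟩ := h2 K A A (AlgebraicClosure K) (Fin n) (Fin n) Ψ Ψ hΨ hΨ
  obtain ⟨Θ, hΘ, hΘf⟩ := h2 K (A ⊗[K] A) A (AlgebraicClosure K) (Fin n × Fin n) (Fin n) Θ2 Ψ
    hΘ2 hΨ
  obtain ⟨k, x, y, hxy⟩ := h3 K A (AlgebraicClosure K) n Ψ hΨ hn hA htr
  obtain ⟨c2, s2⟩ := h6 K A A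
  obtain ⟨c3, s3⟩ := h6 K (A ⊗[K] A) A
  set t1 : (A ⊗[K] A) ⊗[K] A := ∑ i, (x i ⊗ₜ[K] y i) ⊗ₜ[K] (1 : A) with ht1
  set t2 : (A ⊗[K] A) ⊗[K] A := ∑ i, ((1 : A) ⊗ₜ[K] x i) ⊗ₜ[K] y i with ht2
  have e1 : Θ t1 = Pm (AlgebraicClosure K) (fl12 n) := by
    rw [ht1, map_sum]
    have : ∀ i, Θ ((x i ⊗ₜ[K] y i) ⊗ₜ[K] (1 : A)) =
        (Ψ (x i) ⊗ₖ Ψ (y i)) ⊗ₖ (1 : Matrix (Fin n) (Fin n) (AlgebraicClosure K)) := by
      intro i
      rw [hΘf, hΘ2f, map_one]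
    simp only [this]
    rw [← ind3_fl12, ← hxy]
    ext ⟨p, c⟩ ⟨p', c'⟩
    rw [Matrix.sum_apply]
    simp only [Matrix.kronecker_apply]
    rw [Matrix.sum_apply, Finset.sum_mul]
  have e2 : Θ t2 = Pm (AlgebraicClosure K) (fl23 n) := by
    rw [ht2, map_sum, ← ind3_fl23 (AlgebraicClosure K) n k (fun i => Ψ (x i)) (fun i => Ψ (y i))
      hxy]
    refine Finset.sum_congr rfl fun i _ => ?_
    rw [hΘf, hΘ2f, map_one]
  have hE : Θ (1 - t1 - t2 + t1 * t2 + t2 * t1 - t1 * t2 * t1) = E3 (AlgebraicClosure K) n := by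
    simp only [map_sub, map_add, map_mul, map_one, e1, e2]
    rfl
  have hc : Fintype.card ((Fin n × Fin n) × Fin n) = n * n * n := by
    simp only [Fintype.card_prod, Fintype.card_fin]
  have hd : finrank K ((A ⊗[K] A) ⊗[K] A) = Fintype.card ((Fin n × Fin n) × Fin n) ^ 2 := by
    rw [hc, finrank_tensorProduct, finrank_tensorProduct, hA]
    ring
  obtain ⟨B, rB, aB, b1, b2, b3, b4⟩ := h5 K ((A ⊗[K] A) ⊗[K] A) ((Fin n × Fin n) × Fin n) Θ hΘ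
    (by rw [hc]; positivity) hd (1 - t1 - t2 + t1 * t2 + t2 * t1 - t1 * t2 * t1) m hm
    (by rw [hE, h4, hc]; exact hδ) (by rw [hc]; exact hmn)
  refine ⟨B, rB, aB, b1, b2, b3, ?_⟩
  rw [hc] at b4
  exact b4

end Pool.Agent.Helper75.PX
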