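import Pool.Agent.Helper75.PX.Stmts

/-!
# PX, row W4: the fourth generator
-/

set_option autoImplicit false

universe u

open Module TensorProduct

namespace Pool.Agent.Helper75.PX

theorem st_W4 : ST_W4.{u} := by
  intro K D _ _ _ _ _ h2 α β z a b haa hbb hβ hab hz hα hza hzb
  have h2D : (2 : D) ≠ 0 := by
    intro h
    apply h2
    apply (algebraMap K D).injective
    rw [map_zero, map_ofNat]
    exact h
  by_cases hex : ∃ y : D, y * α = α * y ∧ y * β ≠ β * y
  · obtain ⟨y, hy, hyb⟩ := hex
    refine ⟨y * β - β * y, sub_ne_zero.2 hyb, ?_, ?_⟩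
    · have e1 : y * β * α = α * (y * β) := by
        rw [mul_assoc, ← hab, ← mul_assoc, hy, mul_assoc]
      have e2 : β * y * α = α * (β * y) := by
        rw [mul_assoc, hy, ← mul_assoc, ← hab, mul_assoc]
      rw [sub_mul, mul_sub, e1, e2]
    · have e1 : y * β * β = b • y := by
        rw [mul_assoc, hbb, ← Algebra.commutes, ← Algebra.smul_def]
      have e2 : β * (β * y) = b • y := by
        rw [← mul_assoc, hbb, ← Algebra.smul_def]
      rw [sub_mul, mul_sub, e1, e2, ← mul_assoc, neg_sub]
  · exfalso
    push Not at hex
    have hc : β ∈ Subalgebra.center K D := by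
      rw [Subalgebra.mem_center_iff]
      intro x
      have c1 : (x * α + α * x) * α = α * (x * α + α * x) := by
        have e1 : x * α * α = a • x := by
          rw [mul_assoc, haa, ← Algebra.commutes, ← Algebra.smul_def]
        have e2 : α * (α * x) = a • x := by
          rw [← mul_assoc, haa, ← Algebra.smul_def]
        rw [add_mul, mul_add, e1, e2, ← mul_assoc, add_comm]
      have c2 : (x * α - α * x) * α = -(α * (x * α - α * x)) := by
        have e1 : x * α * α = a • x := by
          rw [mul_assoc, haa, ← Algebra.commutes, ← Algebra.smul_def]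
        have e2 : α * (α * x) = a • x := by
          rw [← mul_assoc, haa, ← Algebra.smul_def]
        rw [sub_mul, mul_sub, e1, e2, ← mul_assoc, neg_sub]
      have c3 : (z * (x * α - α * x)) * α = α * (z * (x * α - α * x)) := by
        rw [mul_assoc, c2, mul_neg, ← mul_assoc, hza, neg_mul, neg_neg, mul_assoc]
      have d1 := hex _ c1
      have d3 := hex _ c3
      have d2 : (x * α - α * x) * β = β * (x * α - α * x) := by
        apply mul_left_cancel₀ hz
        rw [← mul_assoc, d3, ← mul_assoc, ← hzb, mul_assoc]
      have d4 : (2 * (x * α)) * β = β * (2 * (x * α)) := by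
        have e1 : 2 * (x * α) = (x * α + α * x) + (x * α - α * x) := by
          rw [two_mul]
          abel
        rw [e1, add_mul, mul_add, d1, d2]
      have d5 : (x * α) * β = β * (x * α) := by
        apply mul_left_cancel₀ h2D
        rw [← mul_assoc, d4, two_mul, two_mul, mul_add]
      apply mul_right_cancel₀ hα
      rw [mul_assoc, ← hab, ← mul_assoc, d5, mul_assoc]
    have hb := Algebra.IsCentral.out hc
    obtain ⟨k, hk⟩ := Algebra.mem_bot.1 hb
    exact hβ k hk.symm

end Pool.Agent.Helper75.PX
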